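import Pool.Agent.W798.SP.Stm2

/-!
Project SPY (helper798): the conditional entropic Szemeredi-Trotter inequality with varying sizes.
-/

set_option autoImplicit false

open Finset
open scoped Classical Pointwise

namespace Pool.Agent.W99.SPY

open Pool.Agent.W904.AK Pool.Agent.W798.SP

theorem tSTD (h1 : S_ST2) (h2 : S_GC2) : S_STD := by
  intro Ω γ _ p Q x y a b n m N X Y L hp hX hY hL hN hsup
  have key := h2 p Q (fun ω => (a ω, b ω)) (fun ω => (x ω, y ω))
    (fun q => (L q).filter (fun l => l.1 ≠ 0))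
    (fun q l => ((X q).filter (fun x => l.1 * x + l.2 ∈ Y q)).image (fun x => (x, l.1 * x + l.2)))
    3 (fun q => 4097 * ((Nat.log 2 (n q) : ℝ) + 1) * ((n q : ℝ) * m q) ^ 2) hp ?_ ?_
  · have h5 : ∑ ω, p ω * Real.log (4097 * ((Nat.log 2 (n (Q ω)) : ℝ) + 1) *
        ((n (Q ω) : ℝ) * m (Q ω)) ^ 2) ≤
        ∑ ω, (2 * (p ω * (Real.log (n (Q ω)) + Real.log (m (Q ω)))) + p ω * Cst N) := by
      refine Finset.sum_le_sum fun ω _ => ?_
      by_cases hω : p ω = 0
      · rw [hω]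
        simp
      have h3 := hsup ω hω
      have hn : 1 ≤ n (Q ω) := (Finset.card_pos.2 ⟨_, h3.1⟩).trans_le (hX _)
      have hm : 1 ≤ m (Q ω) := (Finset.card_pos.2 ⟨_, h3.2.1⟩).trans_le (hY _)
      have hn' : (0 : ℝ) < n (Q ω) := by exact_mod_cast hn
      have hm' : (0 : ℝ) < m (Q ω) := by exact_mod_cast hm
      have h4 : Real.log (4097 * ((Nat.log 2 (n (Q ω)) : ℝ) + 1) *
          ((n (Q ω) : ℝ) * m (Q ω)) ^ 2) ≤
          2 * (Real.log (n (Q ω)) + Real.log (m (Q ω))) + Cst N := by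
        rw [Real.log_mul (by positivity) (by positivity), Real.log_pow,
          Real.log_mul hn'.ne' hm'.ne']
        have h6 : Real.log (4097 * ((Nat.log 2 (n (Q ω)) : ℝ) + 1)) ≤ Cst N := by
          unfold Cst
          apply Real.log_le_log (by positivity)
          have h7 : ((Nat.log 2 (n (Q ω)) : ℕ) : ℝ) ≤ ((Nat.log 2 N : ℕ) : ℝ) := by
            exact_mod_cast Nat.log_mono_right (hN _)
          linarith
        push_cast
        linarith
      have h8 := mul_le_mul_of_nonneg_left h4 (hp.1 ω)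
      linarith
    rw [Finset.sum_add_distrib, ← Finset.mul_sum, ← Finset.sum_mul, hp.2, one_mul] at h5
    have h6 := key.trans h5
    norm_num at h6
    linarith
  · intro ω hω
    obtain ⟨h3, h4, h5, h6, h7⟩ := hsup ω hω
    refine ⟨Finset.mem_filter.2 ⟨h7, h5⟩, Finset.mem_image.2 ⟨x ω, Finset.mem_filter.2 ⟨h3, ?_⟩, ?_⟩⟩
    · show a ω * x ω + b ω ∈ Y (Q ω)
      rw [← h6]
      exact h4
    · show (x ω, a ω * x ω + b ω) = (x ω, y ω)
      rw [← h6]
  · intro ω _
    have h3 := h1 (X (Q ω)) (Y (Q ω)) ((L (Q ω)).filter (fun l => l.1 ≠ 0)) (n (Q ω)) (m (Q ω))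
      (hX _) (hY _) (fun l hl => (Finset.mem_filter.1 hl).2)
      ((Finset.card_filter_le _ _).trans (hL _))
    have h4 : ∑ l ∈ (L (Q ω)).filter (fun l => l.1 ≠ 0),
        ((((X (Q ω)).filter (fun x => l.1 * x + l.2 ∈ Y (Q ω))).image
          (fun x => (x, l.1 * x + l.2))).card) ^ 3 ≤
        4097 * (Nat.log 2 (n (Q ω)) + 1) * (n (Q ω) * m (Q ω)) ^ 2 := by
      refine le_trans (Finset.sum_le_sum fun l _ => ?_) h3
      exact Nat.pow_le_pow_left Finset.card_image_le 3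
    have h5 : ((∑ l ∈ (L (Q ω)).filter (fun l => l.1 ≠ 0),
        ((((X (Q ω)).filter (fun x => l.1 * x + l.2 ∈ Y (Q ω))).image
          (fun x => (x, l.1 * x + l.2))).card) ^ 3 : ℕ) : ℝ) ≤
        ((4097 * (Nat.log 2 (n (Q ω)) + 1) * (n (Q ω) * m (Q ω)) ^ 2 : ℕ) : ℝ) := by
      exact_mod_cast h4
    push_cast at h5
    exact h5

end Pool.Agent.W99.SPY
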